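import Pool.Agent.J6H99.NC.Stm

/-!
# No corners of the limit shape: module REACH
-/

set_option autoImplicit false

open MeasureTheory ProbabilityTheory Filter Topology
open scoped ENNReal

namespace Pool.Agent.J6H84.NC.Reach

open Pool.Agent.J6H99.NC

variable {e : ℕ}

/-- ball -/
def Bl (x : V e) (R : ℝ) : Set (V e) := {v | (n1 (v - x) : ℝ) ≤ R}

lemma integrable_T (q : Par) (F : Measure ℝ) [IsProbabilityMeasure F] (x y : V e) :
    Integrable (fun ω : Om e => T q ω x y) (PM e F) := by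
  refine Integrable.of_bound (measurable_T q x y).aestronglyMeasurable (q.b * n1 (y - x)) ?_
  refine Eventually.of_forall fun ω => ?_
  rw [Real.norm_eq_abs, abs_of_nonneg (T_nonneg q ω x y)]
  exact T_le_n1 q ω x y

lemma g_nonneg (q : Par) (F : Measure ℝ) [IsProbabilityMeasure F] (x : V e) : 0 ≤ g q F x :=
  integral_nonneg fun ω => T_nonneg q ω 0 x

lemma g_lip (q : Par) (F : Measure ℝ) [IsProbabilityMeasure F] (x x' : V e) :
    g q F x ≤ g q F x' + q.b * n1 (x - x') := by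
  unfold g
  have h : ∀ ω : Om e, T q ω 0 x ≤ T q ω 0 x' + q.b * n1 (x - x') := fun ω =>
    (T_tri q ω 0 x' x).trans (by have := T_le_n1 q ω x' x; linarith)
  calc ∫ ω, T q ω 0 x ∂(PM e F) ≤ ∫ ω, (T q ω 0 x' + q.b * n1 (x - x')) ∂(PM e F) :=
        integral_mono (integrable_T q F 0 x) ((integrable_T q F 0 x').add (integrable_const _)) h
    _ = ∫ ω, T q ω 0 x' ∂(PM e F) + q.b * n1 (x - x') := by
        rw [integral_add (integrable_T q F 0 x') (integrable_const _)]
        simp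

/-! ### passage times in a ball -/

lemma block (q : Par) (F : Measure ℝ) [IsProbabilityMeasure F] (hF : FarB e q F) :
    ∃ ρ K1 : ℝ, 1 ≤ ρ ∧ 0 ≤ K1 ∧ ∀ x : V e,
      ∫⁻ ω, X q ω (EIn (Bl 0 (ρ * ((n1 x : ℝ) + 1)))) 0 {x} ∂(PM e F) ≤
        ENNReal.ofReal (g q F x + K1) := by
  obtain ⟨c1, hc1, hfar⟩ := hF
  obtain ⟨C, hC, hfar⟩ := hfar 1
  have hb := q.hb
  set ρ : ℕ := ⌈(q.b + 1) / c1⌉₊ + 1 with hρ
  have hρ1 : (1 : ℝ) ≤ ρ := by
    rw [hρ]; push_cast; linarith [Nat.cast_nonneg (α := ℝ) ⌈(q.b + 1) / c1⌉₊]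
  have hρc : q.b + 1 ≤ c1 * ρ := by
    have h1 := Nat.le_ceil ((q.b + 1) / c1)
    rw [div_le_iff₀ hc1] at h1
    rw [hρ]; push_cast
    nlinarith
  refine ⟨ρ, 1 + q.b * C, hρ1, by positivity, fun x => ?_⟩
  have hx0 : (0 : ℝ) ≤ n1 x := by exact_mod_cast n1_nonneg x
  set n : ℕ := ρ * ((n1 x).toNat + 1) with hn
  have hxn : ((n1 x).toNat : ℝ) = n1 x := by
    have := Int.toNat_of_nonneg (n1_nonneg x)
    exact_mod_cast this
  have hnR : (n : ℝ) = ρ * ((n1 x : ℝ) + 1) := by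
    rw [hn]; push_cast; rw [hxn]
  set Bad : Set (Om e) := {ω | ∃ y : V e, (n : ℤ) ≤ n1 y ∧ T q ω 0 y < c1 * n1 y} with hBad
  have hpt : ∀ ω : Om e, X q ω (EIn (Bl 0 (ρ * ((n1 x : ℝ) + 1)))) 0 {x} ≤
      ENNReal.ofReal (T q ω 0 x + 1) +
        Bad.indicator (fun _ => ENNReal.ofReal (q.b * n1 x)) ω := by
    intro ω
    by_cases hω : ω ∈ Bad
    · rw [Set.indicator_of_mem hω]
      refine le_trans ?_ le_add_self
      have h1 : ω ∈ Ev q (EIn (Bl 0 (ρ * ((n1 x : ℝ) + 1)))) 0 x (q.b * n1 (x - 0)) := by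
        refine Ev_ball q ω fun z hz => ?_
        show (n1 (z - 0) : ℝ) ≤ ρ * ((n1 x : ℝ) + 1)
        have h2 : (n1 (z - 0) : ℝ) ≤ n1 (x - 0) := by exact_mod_cast hz
        rw [sub_zero x] at h2
        nlinarith
      rw [sub_zero] at h1
      exact X_le_of_Ev q (Set.mem_singleton x) h1
    · rw [Set.indicator_of_notMem hω, add_zero]
      obtain ⟨p, hp⟩ := exists_near q ω 0 x one_pos
      have hsup : ∀ v ∈ p.support, v ∈ Bl (0 : V e) (ρ * ((n1 x : ℝ) + 1)) := by
        classical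
        intro v hv
        by_contra hcon
        have h1 : (ρ : ℝ) * ((n1 x : ℝ) + 1) < n1 v := by
          have : ¬ ((n1 (v - 0) : ℝ) ≤ ρ * ((n1 x : ℝ) + 1)) := hcon
          rw [sub_zero] at this
          exact not_le.1 this
        have h2 : (n : ℤ) ≤ n1 v := by
          have : (n : ℝ) ≤ n1 v := by rw [hnR]; exact h1.le
          exact_mod_cast this
        have h3 : c1 * n1 v ≤ T q ω 0 v := by
          by_contra h4
          exact hω ⟨v, h2, not_le.1 h4⟩
        have h4 : T q ω 0 v ≤ cost q ω p := by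
          have h5 : cost q ω p = cost q ω (p.takeUntil v hv) + cost q ω (p.dropUntil v hv) := by
            rw [← cost_append, SimpleGraph.Walk.take_spec]
          have h6 := T_le q ω (p.takeUntil v hv)
          have h7 := cost_nonneg q ω (p.dropUntil v hv)
          linarith
        have h5 := T_le_n1 q ω 0 x
        rw [sub_zero] at h5
        have h6 : c1 * (ρ * ((n1 x : ℝ) + 1)) < c1 * n1 v := mul_lt_mul_of_pos_left h1 hc1
        have h7 : (q.b + 1) * ((n1 x : ℝ) + 1) ≤ c1 * ρ * ((n1 x : ℝ) + 1) :=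
          mul_le_mul_of_nonneg_right hρc (by linarith)
        nlinarith
      exact (X_le q ω (Set.mem_singleton x) p (edges_EIn hsup)).trans
        (ENNReal.ofReal_le_ofReal hp.le)
  have hint : Integrable (fun ω : Om e => T q ω 0 x + 1) (PM e F) :=
    (integrable_T q F 0 x).add (integrable_const _)
  have hmeas : Measurable fun ω : Om e => ENNReal.ofReal (T q ω 0 x + 1) :=
    ((measurable_T q 0 x).add measurable_const).ennreal_ofReal
  calc ∫⁻ ω, X q ω (EIn (Bl 0 (ρ * ((n1 x : ℝ) + 1)))) 0 {x} ∂(PM e F)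
      ≤ ∫⁻ ω, (ENNReal.ofReal (T q ω 0 x + 1) +
        Bad.indicator (fun _ => ENNReal.ofReal (q.b * n1 x)) ω) ∂(PM e F) := lintegral_mono hpt
    _ = ∫⁻ ω, ENNReal.ofReal (T q ω 0 x + 1) ∂(PM e F) +
        ∫⁻ ω, Bad.indicator (fun _ => ENNReal.ofReal (q.b * n1 x)) ω ∂(PM e F) :=
        lintegral_add_left hmeas _
    _ ≤ ENNReal.ofReal (g q F x + 1) + ENNReal.ofReal (q.b * C) := by
        gcongr
        · rw [← ofReal_integral_eq_lintegral_ofReal hint
            (Eventually.of_forall fun ω => by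
              have := T_nonneg q ω 0 x
              show (0 : ℝ) ≤ T q ω 0 x + 1
              linarith)]
          rw [integral_add (integrable_T q F 0 x) (integrable_const _)]
          simp [g]
        · refine (lintegral_indicator_const_le _ _).trans ?_
          calc ENNReal.ofReal (q.b * n1 x) * PM e F Bad
              ≤ ENNReal.ofReal (q.b * n1 x) * ENNReal.ofReal (C / ((n : ℝ) + 1) ^ 1) := by
                gcongr
                exact hfar n
            _ = ENNReal.ofReal (q.b * n1 x * (C / ((n : ℝ) + 1))) := by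
                rw [pow_one, ← ENNReal.ofReal_mul (mul_nonneg hb.le hx0)]
            _ ≤ ENNReal.ofReal (q.b * C) := by
                refine ENNReal.ofReal_le_ofReal ?_
                have hn0 : (0 : ℝ) < (n : ℝ) + 1 := by positivity
                have hxn' : (n1 x : ℝ) ≤ n + 1 := by
                  rw [hnR]; nlinarith
                rw [mul_div_assoc', div_le_iff₀ hn0]
                nlinarith [mul_nonneg hb.le hC]
    _ = ENNReal.ofReal (g q F x + (1 + q.b * C)) := by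
        rw [← ENNReal.ofReal_add (by have := g_nonneg q F x; linarith) (by positivity)]
        congr 1
        ring

/-- translation -/
lemma lint_block (q : Par) (F : Measure ℝ) [IsProbabilityMeasure F] (x z : V e) (r : ℝ) :
    ∫⁻ ω, X q ω (EIn (Bl x r)) x {z} ∂(PM e F) =
      ∫⁻ ω, X q ω (EIn (Bl 0 r)) 0 {z - x} ∂(PM e F) := by
  have h := lint_X_act q F (tr x) (A := EIn (Bl 0 r)) (B := EIn (Bl x r)) (Y := {z - x})
    (Y' := {z}) (EIn_map (tr x) fun v => by simp [Bl]) (fun y => by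
      simp only [Set.mem_singleton_iff, tr_apply]
      exact eq_sub_iff_add_eq) 0
  rw [tr_apply, zero_add] at h
  exact h

/-! ### straight lines -/

lemma Ev_line (q : Par) (ω : Om e) (w x : V e) (hw : n1 w = 1) (k : ℕ) {A : Set (Sym2 (V e))}
    (hA : ∀ j : ℕ, j < k → s(x + (j : ℤ) • w, x + ((j : ℤ) + 1) • w) ∈ A) :
    ω ∈ Ev q A x (x + (k : ℤ) • w) (q.b * k) := by
  induction k with
  | zero =>
    simp only [Nat.cast_zero, zero_smul, add_zero, mul_zero]
    exact ⟨SimpleGraph.Walk.nil, Uses.nil _ _, by rw [cost_nil]⟩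
  | succ n ih =>
    have h1 := ih fun j hj => hA j (by omega)
    have h2 : ω ∈ Ev q A (x + (n : ℤ) • w) (x + ((n + 1 : ℕ) : ℤ) • w) q.b := by
      have hadj : (lat e).Adj (x + (n : ℤ) • w) (x + ((n + 1 : ℕ) : ℤ) • w) := by
        show n1 _ = 1
        rw [show x + (n : ℤ) • w - (x + ((n + 1 : ℕ) : ℤ) • w) = -w by
          push_cast; rw [add_smul, one_smul]; abel, n1_neg, hw]
      refine ⟨SimpleGraph.Walk.cons hadj SimpleGraph.Walk.nil, ?_, ?_⟩
      · intro s hs
        simp only [SimpleGraph.Walk.edges_cons, SimpleGraph.Walk.edges_nil,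
          List.mem_singleton] at hs
        rw [hs]
        have := hA n (by omega)
        push_cast
        exact this
      · rw [cost_cons, cost_nil, add_zero]
        exact q.w_le_b _
    have h3 := Ev_trans q h1 h2
    rw [show q.b * ((n + 1 : ℕ) : ℝ) = q.b * n + q.b by push_cast; ring]
    exact h3

/-- a signed unit vector of positive level -/
lemma exists_dir {c y : E e} (h : 0 < dt c y) : ∃ w : V e, n1 w = 1 ∧ 0 < lf c w := by
  obtain ⟨i, hi⟩ : ∃ i, c i ≠ 0 := by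
    by_contra hne
    push Not at hne
    have : dt c y = 0 := by
      unfold dt
      exact Finset.sum_eq_zero fun i _ => by rw [hne i, zero_mul]
    linarith
  have h1 : lf c (u i) = c i := by
    unfold lf dt vc u
    rw [Finset.sum_eq_single i]
    · simp
    · intro j _ hj
      simp [Pi.single_eq_of_ne hj]
    · simp
  rcases lt_or_gt_of_ne hi with h2 | h2
  · exact ⟨-u i, by rw [n1_neg, n1_u], by rw [lf_neg, h1]; linarith⟩
  · exact ⟨u i, n1_u i, by rw [h1]; exact h2⟩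

/-! ### chains -/

lemma X_chain (q : Par) (ω : Om e) (A : Set (Sym2 (V e))) (x : ℕ → V e) (M : ℕ) (k : ℕ) :
    X q ω A (x M) {x (M + k)} ≤ ∑ j ∈ Finset.range k, X q ω A (x (M + j)) {x (M + j + 1)} := by
  induction k with
  | zero => rw [add_zero, X_self q ω A (Set.mem_singleton _)]; simp
  | succ k ih =>
    rw [Finset.sum_range_succ]
    refine (X_trans q ω A (x M) (x (M + k)) _).trans ?_
    gcongr
    rfl

lemma lf_near (c : E e) {v : V e} {z : E e} {r : ℝ} (h : nr (vc v - z) ≤ r) :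
    |lf c v - dt c z| ≤ nr c * r := by
  unfold lf
  rw [← dt_sub]
  exact (abs_dt_le c _).trans (mul_le_mul_of_nonneg_left h (nr_nonneg c))

/-- the points with level in `[0, B)` -/
def Rg (c : E e) (B : ℝ) : Set (V e) := {v | 0 ≤ lf c v ∧ lf c v < B}

lemma EIn_Rg (c : E e) (B : ℝ) : EIn (Rg c B) ⊆ Slab c 0 B := by
  intro s hs
  refine ⟨fun v hv => (hs v hv).1, ?_⟩
  induction s with
  | _ x y => exact ⟨x, Sym2.mem_mk_left x y, (hs x (Sym2.mem_mk_left x y)).2⟩

lemma diff_bound (y : E e) (m j : ℕ) :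
    (n1 (rnd ((((j + 1 : ℕ) : ℝ) * m) • y) - rnd (((j : ℝ) * m) • y) - rnd ((m : ℝ) • y)) : ℝ) ≤
      3 * ((e : ℝ) + 2) := by
  rw [← nr_vc, vc_sub, vc_sub]
  have h1 := nr_rnd_sub ((((j + 1 : ℕ) : ℝ) * m) • y)
  have h2 := nr_rnd_sub (((j : ℝ) * m) • y)
  have h3 := nr_rnd_sub ((m : ℝ) • y)
  have h4 : vc (rnd ((((j + 1 : ℕ) : ℝ) * m) • y)) - vc (rnd (((j : ℝ) * m) • y)) -
      vc (rnd ((m : ℝ) • y)) = ((vc (rnd ((((j + 1 : ℕ) : ℝ) * m) • y)) -
        (((j + 1 : ℕ) : ℝ) * m) • y) - (vc (rnd (((j : ℝ) * m) • y)) - ((j : ℝ) * m) • y)) -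
        (vc (rnd ((m : ℝ) • y)) - (m : ℝ) • y) := by
    have h5 : ((((j + 1 : ℕ) : ℝ) * m) • y) = (((j : ℝ) * m) • y) + ((m : ℝ) • y) := by
      rw [← add_smul]; congr 1; push_cast; ring
    rw [h5]; abel
  rw [h4]
  have h6 := nr_sub_le ((vc (rnd ((((j + 1 : ℕ) : ℝ) * m) • y)) -
        (((j + 1 : ℕ) : ℝ) * m) • y) - (vc (rnd (((j : ℝ) * m) • y)) - ((j : ℝ) * m) • y))
        (vc (rnd ((m : ℝ) • y)) - (m : ℝ) • y)
  have h7 := nr_sub_le (vc (rnd ((((j + 1 : ℕ) : ℝ) * m) • y)) -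
        (((j + 1 : ℕ) : ℝ) * m) • y) (vc (rnd (((j : ℝ) * m) • y)) - ((j : ℝ) * m) • y)
  linarith

lemma step_bound (y : E e) (m j : ℕ) :
    (n1 (rnd ((((j + 1 : ℕ) : ℝ) * m) • y) - rnd (((j : ℝ) * m) • y)) : ℝ) ≤
      m * nr y + 2 * ((e : ℝ) + 2) := by
  refine (n1_rnd_sub_le _ _).trans ?_
  rw [← sub_smul, nr_smul]
  have : (((j + 1 : ℕ) : ℝ) * m - (j : ℝ) * m) = m := by push_cast; ring
  rw [this, abs_of_nonneg (Nat.cast_nonneg m)]

/-- **MODULE REACH.** -/
theorem reach : ReachT := by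
  intro e q F _ hF c y γ hκ hev
  obtain ⟨ρ, K1, hρ, hK1, hblock⟩ := block q F hF
  obtain ⟨w, hw1, hw⟩ := exists_dir hκ
  have hb := q.hb
  have hcE := cE_pos e
  have hy0 := nr_nonneg y
  generalize hκe : dt c y = κ at *
  generalize ha1 : lf c w = a1 at *
  set nc := nr c with hnc
  set d : ℝ := (e : ℝ) + 2 with hd
  have hnc0 : 0 ≤ nc := nr_nonneg c
  have hd0 : 0 < d := by positivity
  obtain ⟨H, hH⟩ : ∃ H : ℝ, H = nc * (2 * d + cE e) := ⟨_, rfl⟩
  have hH0 : 0 ≤ H := by rw [hH]; positivity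
  obtain ⟨s, hs⟩ : ∃ s : ℝ, s = H / κ + 1 := ⟨_, rfl⟩
  have hs0 : 0 < s := by rw [hs]; positivity
  have hsκ : s * κ = H + κ := by rw [hs]; field_simp
  obtain ⟨C1, hC1⟩ : ∃ C1 : ℝ, C1 = (s * κ + nc * d) / a1 + 1 := ⟨_, rfl⟩
  have hC10 : 0 < C1 := by rw [hC1]; positivity
  refine ⟨d + s * nr y + C1, by positivity, fun δ hδ => ?_⟩
  -- the block length
  obtain ⟨K2, hK2⟩ : ∃ K2 : ℝ, K2 = q.b * (3 * d) + K1 := ⟨_, rfl⟩
  have hK20 : 0 ≤ K2 := by rw [hK2]; positivity
  obtain ⟨m, hm3, hm2, hm1⟩ := (hev.and ((tendsto_natCast_atTop_atTop.eventually_ge_atTop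
    (2 * K2 / δ)).and (eventually_ge_atTop 1))).exists
  have hm1' : (1 : ℝ) ≤ m := by exact_mod_cast hm1
  have hm0 : (0 : ℝ) < m := by linarith
  have hγ : 0 ≤ γ := by
    have h1 := g_nonneg q F (rnd ((m : ℝ) • y))
    by_contra h2
    push Not at h2
    have := mul_neg_of_pos_of_neg hm0 h2
    linarith
  have hm2' : K2 ≤ m * (δ / 2) := by
    rw [div_le_iff₀ hδ] at hm2
    linarith
  obtain ⟨Rm, hRm⟩ : ∃ Rm : ℝ, Rm = ρ * (m * nr y + 2 * d + 1) := ⟨_, rfl⟩
  have hRm0 : 0 ≤ Rm := by rw [hRm]; positivity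
  obtain ⟨Gm, hGm⟩ : ∃ Gm : ℝ, Gm = nc * (d + Rm) / κ := ⟨_, rfl⟩
  have hGm0 : 0 ≤ Gm := by rw [hGm]; positivity
  have hGκ : Gm * κ = nc * (d + Rm) := by rw [hGm]; field_simp
  obtain ⟨K0, hK0⟩ := exists_nat_ge (H / a1)
  have hK0' : H ≤ K0 * a1 := by rwa [div_le_iff₀ hw] at hK0
  obtain ⟨M, hM⟩ := exists_nat_ge (Gm + H / κ)
  have hMm : (M : ℝ) ≤ M * m := le_mul_of_one_le_right (Nat.cast_nonneg M) hm1'
  have hHκ : H / κ * κ = H := by field_simp
  have hHκ0 : 0 ≤ H / κ := by positivity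
  have hMG : Gm ≤ M * m := by linarith
  have hMH : H ≤ M * m * κ := by
    calc H = H / κ * κ := hHκ.symm
      _ ≤ M * m * κ := by
        refine mul_le_mul_of_nonneg_right ?_ hκ.le
        linarith
  -- the constant part of the cost
  obtain ⟨S1, hS1⟩ : ∃ S1 : ℝ, S1 = q.b * K0 +
      q.b * (cE e * ((K0 + M * m * nr y) + d + 1)) := ⟨_, rfl⟩
  obtain ⟨S2, hS2⟩ : ∃ S2 : ℝ, S2 = q.b * (cE e * ((Gm + m) * nr y + d + 1)) +
      q.b * C1 := ⟨_, rfl⟩
  have hS10 : 0 ≤ S1 := by rw [hS1]; positivity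
  have hS20 : 0 ≤ S2 := by rw [hS2]; positivity
  refine ⟨2 * (S1 + S2) / δ + K0 * a1 / κ + M * m + H / κ + 1 + (M + 1) * m + s + Gm +
    nc * d / κ, fun A hA => ?_⟩
  have q1 : 0 ≤ 2 * (S1 + S2) / δ := by positivity
  have q2 : 0 ≤ K0 * a1 / κ := by positivity
  have q3 : (0 : ℝ) ≤ M * m := by positivity
  have q4 : (0 : ℝ) ≤ (M + 1) * m := by positivity
  have q5 : 0 ≤ nc * d / κ := by positivity
  have hA1 : S1 + S2 ≤ A * (δ / 2) := by
    have h1 : 2 * (S1 + S2) / δ ≤ A := by linarith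
    rw [div_le_iff₀ hδ] at h1
    linarith
  have hA2 : K0 * a1 + M * m * κ + H < A * κ := by
    have h1 : K0 * a1 / κ + M * m + H / κ < A := by linarith
    have h2 := mul_lt_mul_of_pos_right h1 hκ
    rw [add_mul, add_mul, hHκ, div_mul_cancel₀ _ hκ.ne'] at h2
    exact h2
  have hA3 : ((M : ℝ) + 1) * m ≤ A - s - Gm := by linarith
  have hA4 : nc * d ≤ (A - s) * κ := by
    have h1 : nc * d / κ ≤ A - s := by linarith
    rwa [div_le_iff₀ hκ] at h1
  have hA0 : 0 ≤ A := by linarith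
  -- the number of blocks
  have hAs : 0 ≤ (A - s - Gm) / m := by
    refine div_nonneg ?_ hm0.le
    linarith
  obtain ⟨N, hN⟩ : ∃ N : ℕ, N = ⌊(A - s - Gm) / m⌋₊ := ⟨_, rfl⟩
  have hN1 : (N : ℝ) * m ≤ A - s - Gm := by
    have := Nat.floor_le hAs
    rwa [le_div_iff₀ hm0, ← hN] at this
  have hN2 : A - s - Gm < ((N : ℝ) + 1) * m := by
    have := Nat.lt_floor_add_one ((A - s - Gm) / m)
    rwa [div_lt_iff₀ hm0, ← hN] at this
  have hNM : M ≤ N := by
    rw [hN]
    refine Nat.le_floor ?_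
    rw [le_div_iff₀ hm0]
    linarith
  have hNMR : (M : ℝ) ≤ N := by exact_mod_cast hNM
  obtain ⟨z0, hz0⟩ : ∃ z0 : V e, z0 = rnd ((A - s) • y) := ⟨_, rfl⟩
  have hz0l : |lf c z0 - (A - s) * κ| ≤ nc * d := by
    have := abs_lf_rnd_sub c ((A - s) • y)
    rwa [dt_smul, hκe, ← hz0] at this
  have hz0l' := abs_le.1 hz0l
  obtain ⟨k, hk⟩ : ∃ k : ℕ, k = ⌈(A * κ - lf c z0) / a1⌉₊ := ⟨_, rfl⟩
  have hk1 : A * κ ≤ lf c z0 + k * a1 := by
    have := Nat.le_ceil ((A * κ - lf c z0) / a1)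
    rw [div_le_iff₀ hw, ← hk] at this
    linarith
  have hk2 : (k : ℝ) ≤ C1 := by
    have h0 : 0 ≤ (A * κ - lf c z0) / a1 := by
      refine div_nonneg ?_ hw.le
      have : nc * d ≤ s * κ := by
        have h3 : nc * d ≤ nc * (2 * d + cE e) :=
          mul_le_mul_of_nonneg_left (by linarith) hnc0
        rw [hsκ, hH]
        linarith
      linarith
    have h1 := (Nat.ceil_lt_add_one h0).le
    rw [← hk] at h1
    refine h1.trans ?_
    rw [hC1]
    have : A * κ - lf c z0 ≤ s * κ + nc * d := by linarith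
    gcongr
  have hk3 : ∀ j : ℕ, j < k → lf c z0 + j * a1 < A * κ := by
    intro j hj
    rw [hk] at hj
    have h1 := Nat.lt_ceil.1 hj
    rw [lt_div_iff₀ hw] at h1
    linarith
  obtain ⟨B, hB⟩ : ∃ B : ℝ, B = A * κ := ⟨_, rfl⟩
  rw [← hB] at hA2 hk1 hk3 ⊢
  -- the levels near segments
  have hseg : ∀ (a b : E e), H ≤ dt c a → H ≤ dt c b → dt c a + H < B → dt c b + H < B →
      ∀ z : V e, (∃ t : ℝ, 0 ≤ t ∧ t ≤ 1 ∧ nr (vc z - (a + t • (b - a))) ≤ 2 * d + cE e) →
        z ∈ Rg c B := by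
    rintro a b ha hb' ha' hb'' z ⟨t, ht0, ht1, hz⟩
    have h1 := abs_le.1 (lf_near c hz)
    rw [← hnc, ← hH, dt_add, dt_smul, dt_sub] at h1
    constructor
    · rcases le_total (dt c a) (dt c b) with h2 | h2
      · have h3 : 0 ≤ t * (dt c b - dt c a) := mul_nonneg ht0 (by linarith)
        linarith
      · have h3 : t * (dt c a - dt c b) ≤ 1 * (dt c a - dt c b) :=
          mul_le_mul_of_nonneg_right ht1 (by linarith)
        linarith
    · rcases le_total (dt c a) (dt c b) with h2 | h2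
      · have h3 : t * (dt c b - dt c a) ≤ 1 * (dt c b - dt c a) :=
          mul_le_mul_of_nonneg_right ht1 (by linarith)
        linarith
      · have h3 : 0 ≤ t * (dt c a - dt c b) := mul_nonneg ht0 (by linarith)
        linarith
  set xs : ℕ → V e := fun j => rnd (((j : ℝ) * m) • y) with hxs
  have hline : ∀ (v : V e) (j : ℕ), lf c (v + (j : ℤ) • w) = lf c v + j * a1 := by
    intro v j
    rw [lf_add, lf_smul, ha1]
    push_cast
    ring
  have hline' : ∀ (v : V e) (j : ℕ), lf c (v + ((j : ℤ) + 1) • w) = lf c v + (j + 1) * a1 := by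
    intro v j
    rw [lf_add, lf_smul, ha1]
    push_cast
    ring
  -- first line
  have hP1 : ∀ ω : Om e, ω ∈ Ev q (Slab c 0 B) 0 (0 + (K0 : ℤ) • w) (q.b * K0) := by
    intro ω
    refine Ev_line q ω w 0 hw1 K0 fun j hj => ?_
    have hj' : (j : ℝ) ≤ K0 := by exact_mod_cast hj.le
    have hj0 : (0 : ℝ) ≤ j := Nat.cast_nonneg j
    refine ⟨?_, 0 + (j : ℤ) • w, Sym2.mem_mk_left _ _, ?_⟩
    · intro v hv
      show 0 ≤ lf c v
      rcases Sym2.mem_iff.1 hv with rfl | rfl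
      · rw [hline, lf_zero]; positivity
      · rw [hline', lf_zero]; positivity
    · rw [hline, lf_zero]
      have : (j : ℝ) * a1 ≤ K0 * a1 := mul_le_mul_of_nonneg_right hj' hw.le
      have h0 : 0 ≤ M * m * κ := by positivity
      linarith
  -- first segment
  have hP2 : ∀ ω : Om e, ω ∈ Ev q (Slab c 0 B) (0 + (K0 : ℤ) • w) (xs M)
      (q.b * (cE e * ((K0 + M * m * nr y) + d + 1))) := by
    intro ω
    have hl : dt c (vc (0 + (K0 : ℤ) • w)) = K0 * a1 := by
      show lf c (0 + (K0 : ℤ) • w) = K0 * a1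
      rw [hline, lf_zero, zero_add]
    have hl2 : dt c (((M : ℝ) * m) • y) = M * m * κ := by rw [dt_smul, hκe]
    have h1 := Ev_seg q ω (a := vc (0 + (K0 : ℤ) • w)) (b := ((M : ℝ) * m) • y)
      (x := 0 + (K0 : ℤ) • w) (y := xs M) (r := d) hd0.le (by rw [sub_self, nr_zero]; exact hd0.le)
      (nr_rnd_sub _) (R := Rg c B) (hseg _ _ (by rw [hl]; exact hK0') (by rw [hl2]; exact hMH)
        (by rw [hl]; have h0 : 0 ≤ M * m * κ := by positivity
            linarith)
        (by rw [hl2]; have h0 : 0 ≤ K0 * a1 := by positivity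
            linarith))
    refine Ev_mono_set q (EIn_Rg c B) _ _ _ (Ev_mono q _ _ _ ?_ h1)
    have h2 : nr (((M : ℝ) * m) • y - vc (0 + (K0 : ℤ) • w)) ≤ K0 + M * m * nr y := by
      refine (nr_sub_le _ _).trans ?_
      rw [nr_smul, abs_of_nonneg q3, nr_vc, zero_add]
      have h3 : (n1 ((K0 : ℤ) • w) : ℝ) = K0 := by
        have : n1 ((K0 : ℤ) • w) = K0 := by
          unfold n1 at hw1 ⊢
          simp only [Pi.smul_apply, smul_eq_mul, abs_mul, Nat.abs_cast]
          rw [← Finset.mul_sum, hw1, mul_one]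
        rw [this]; push_cast; rfl
      rw [h3]
      linarith
    gcongr
  -- last segment
  have hP4 : ∀ ω : Om e, ω ∈ Ev q (Slab c 0 B) (xs N) z0
      (q.b * (cE e * ((Gm + m) * nr y + d + 1))) := by
    intro ω
    have hl1 : dt c (((N : ℝ) * m) • y) = N * m * κ := by rw [dt_smul, hκe]
    have hl2 : dt c ((A - s) • y) = (A - s) * κ := by rw [dt_smul, hκe]
    have hNm : (M : ℝ) * m * κ ≤ N * m * κ := by gcongr
    have hNA : (N : ℝ) * m * κ ≤ (A - s) * κ :=
      mul_le_mul_of_nonneg_right (by linarith) hκ.le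
    have hAB : (A - s) * κ + H < B := by
      rw [sub_mul, hsκ, ← hB]; linarith
    have h1 := Ev_seg q ω (a := ((N : ℝ) * m) • y) (b := (A - s) • y)
      (x := xs N) (y := z0) (r := d) hd0.le (nr_rnd_sub _)
      (by rw [hz0]; exact nr_rnd_sub _) (R := Rg c B) (hseg _ _ (by rw [hl1]; linarith) (by rw [hl2]; linarith)
        (by rw [hl1]; linarith) (by rw [hl2]; linarith))
    refine Ev_mono_set q (EIn_Rg c B) _ _ _ (Ev_mono q _ _ _ ?_ h1)
    have h2 : nr ((A - s) • y - ((N : ℝ) * m) • y) ≤ (Gm + m) * nr y := by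
      rw [← sub_smul, nr_smul, abs_of_nonneg (by linarith)]
      exact mul_le_mul_of_nonneg_right (by linarith) hy0
    gcongr
  -- last line
  have hP5 : ∀ ω : Om e, ω ∈ Ev q (Slab c 0 B) z0 (z0 + (k : ℤ) • w) (q.b * C1) := by
    intro ω
    refine Ev_mono q _ _ _ (mul_le_mul_of_nonneg_left hk2 hb.le) (Ev_line q ω w z0 hw1 k
      fun j hj => ?_)
    have hj0 : (0 : ℝ) ≤ j := Nat.cast_nonneg j
    have h0 : 0 ≤ lf c z0 := by linarith
    refine ⟨?_, z0 + (j : ℤ) • w, Sym2.mem_mk_left _ _, ?_⟩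
    · intro v hv
      show 0 ≤ lf c v
      rcases Sym2.mem_iff.1 hv with rfl | rfl
      · rw [hline]; positivity
      · rw [hline']; positivity
    · rw [hline]; exact hk3 j hj
  -- blocks
  have hblk : ∀ j : ℕ, M ≤ j → j < N → EIn (Bl (xs j) (ρ * ((n1 (xs (j + 1) - xs j) : ℝ) + 1))) ⊆
      Slab c 0 B := by
    intro j hj1 hj2
    refine (EIn_mono ?_).trans (EIn_Rg c B)
    intro v hv
    have hj1' : (M : ℝ) * m * κ ≤ j * m * κ := by
      have : (M : ℝ) ≤ j := by exact_mod_cast hj1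
      gcongr
    have hj2' : (j : ℝ) * m * κ ≤ N * m * κ := by
      have : (j : ℝ) ≤ N := by exact_mod_cast hj2.le
      gcongr
    have h1 : (n1 (v - xs j) : ℝ) ≤ Rm := by
      refine le_trans hv ?_
      rw [hRm]
      have := step_bound y m j
      simp only [hxs]
      gcongr
    have h2 := abs_le.1 (abs_lf_sub_le c v (xs j))
    have h3 : nr c * (n1 (v - xs j) : ℝ) ≤ nc * Rm := mul_le_mul_of_nonneg_left h1 hnc0
    have h4 := abs_lf_rnd_sub c (((j : ℝ) * m) • y)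
    rw [dt_smul, hκe] at h4
    have h5 := abs_le.1 h4
    have h6 : lf c (xs j) = lf c (rnd (((j : ℝ) * m) • y)) := rfl
    have h7 : Gm * κ ≤ M * m * κ := mul_le_mul_of_nonneg_right hMG hκ.le
    have h8 : (N : ℝ) * m * κ ≤ (A - s - Gm) * κ := mul_le_mul_of_nonneg_right hN1 hκ.le
    have h9 : (A - s - Gm) * κ = B - (H + κ) - nc * (d + Rm) := by
      rw [sub_mul, sub_mul, hsκ, hGκ, hB]
    rw [hGκ] at h7
    constructor
    · linarith
    · linarith
  have hbi : ∀ j : ℕ, M ≤ j → j < N → ∫⁻ ω, X q ω (Slab c 0 B) (xs j) {xs (j + 1)} ∂(PM e F) ≤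
      ENNReal.ofReal (m * γ + K2) := by
    intro j hj1 hj2
    calc ∫⁻ ω, X q ω (Slab c 0 B) (xs j) {xs (j + 1)} ∂(PM e F)
        ≤ ∫⁻ ω, X q ω (EIn (Bl (xs j) (ρ * ((n1 (xs (j + 1) - xs j) : ℝ) + 1)))) (xs j)
          {xs (j + 1)} ∂(PM e F) := lintegral_mono fun ω => X_mono q ω (hblk j hj1 hj2) _ _
      _ = ∫⁻ ω, X q ω (EIn (Bl 0 (ρ * ((n1 (xs (j + 1) - xs j) : ℝ) + 1)))) 0
          {xs (j + 1) - xs j} ∂(PM e F) := lint_block q F _ _ _
      _ ≤ ENNReal.ofReal (g q F (xs (j + 1) - xs j) + K1) := hblock _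
      _ ≤ ENNReal.ofReal (m * γ + K2) := by
        refine ENNReal.ofReal_le_ofReal ?_
        have h1 := g_lip q F (xs (j + 1) - xs j) (rnd ((m : ℝ) • y))
        have h2 := mul_le_mul_of_nonneg_left (diff_bound y m j) hb.le
        have h3 : (n1 (xs (j + 1) - xs j - rnd ((m : ℝ) • y)) : ℝ) =
          (n1 (rnd ((((j + 1 : ℕ) : ℝ) * m) • y) - rnd (((j : ℝ) * m) • y) -
            rnd ((m : ℝ) • y)) : ℝ) := rfl
        rw [h3] at h1
        rw [hK2]
        linarith
  refine ⟨z0 + (k : ℤ) • w, ?_, ?_, ?_⟩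
  · have h1 : vc (z0 + (k : ℤ) • w) - A • y = (vc z0 - (A - s) • y) - s • y +
        vc ((k : ℤ) • w) := by
      rw [vc_add, sub_smul]; abel
    rw [h1]
    have h2 := nr_add_le ((vc z0 - (A - s) • y) - s • y) (vc ((k : ℤ) • w))
    have h3 := nr_sub_le (vc z0 - (A - s) • y) (s • y)
    have h4 : nr (vc z0 - (A - s) • y) ≤ d := by rw [hz0]; exact nr_rnd_sub _
    rw [nr_smul, abs_of_pos hs0] at h3
    have h5 : nr (vc ((k : ℤ) • w)) = k := by
      rw [nr_vc]
      have : n1 ((k : ℤ) • w) = k := by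
        unfold n1 at hw1 ⊢
        simp only [Pi.smul_apply, smul_eq_mul, abs_mul, Nat.abs_cast]
        rw [← Finset.mul_sum, hw1, mul_one]
      rw [this]; push_cast; rfl
    rw [h5] at h2
    linarith
  · rw [hline]; exact hk1
  · have hpt : ∀ ω : Om e, X q ω (Slab c 0 B) 0 {z0 + (k : ℤ) • w} ≤
        ENNReal.ofReal (S1 + S2) +
          ∑ j ∈ Finset.range (N - M), X q ω (Slab c 0 B) (xs (M + j)) {xs (M + j + 1)} := by
      intro ω
      have e1 := X_le_of_Ev q (Set.mem_singleton _) (Ev_trans q (hP1 ω) (hP2 ω))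
      have e2 := X_le_of_Ev q (Set.mem_singleton _) (Ev_trans q (hP4 ω) (hP5 ω))
      rw [← hS1] at e1
      rw [← hS2] at e2
      have e3 := X_chain q ω (Slab c 0 B) xs M (N - M)
      rw [Nat.add_sub_cancel' hNM] at e3
      calc X q ω (Slab c 0 B) 0 {z0 + (k : ℤ) • w}
          ≤ X q ω (Slab c 0 B) 0 {xs M} + X q ω (Slab c 0 B) (xs M) {z0 + (k : ℤ) • w} :=
            X_trans _ _ _ _ _ _
        _ ≤ X q ω (Slab c 0 B) 0 {xs M} + (X q ω (Slab c 0 B) (xs M) {xs N} +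
            X q ω (Slab c 0 B) (xs N) {z0 + (k : ℤ) • w}) := by
            gcongr
            exact X_trans _ _ _ _ _ _
        _ ≤ ENNReal.ofReal S1 + ((∑ j ∈ Finset.range (N - M),
            X q ω (Slab c 0 B) (xs (M + j)) {xs (M + j + 1)}) + ENNReal.ofReal S2) := by
            gcongr
        _ = ENNReal.ofReal (S1 + S2) +
          ∑ j ∈ Finset.range (N - M), X q ω (Slab c 0 B) (xs (M + j)) {xs (M + j + 1)} := by
            rw [ENNReal.ofReal_add hS10 hS20]; ring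
    calc ∫⁻ ω, X q ω (Slab c 0 B) 0 {z0 + (k : ℤ) • w} ∂(PM e F)
        ≤ ∫⁻ ω, (ENNReal.ofReal (S1 + S2) + ∑ j ∈ Finset.range (N - M),
            X q ω (Slab c 0 B) (xs (M + j)) {xs (M + j + 1)}) ∂(PM e F) := lintegral_mono hpt
      _ = ENNReal.ofReal (S1 + S2) + ∑ j ∈ Finset.range (N - M),
            ∫⁻ ω, X q ω (Slab c 0 B) (xs (M + j)) {xs (M + j + 1)} ∂(PM e F) := by
          rw [lintegral_add_left measurable_const, lintegral_const, measure_univ, mul_one,
            lintegral_finsetSum _ fun j _ => X_meas q _ _ _]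
      _ ≤ ENNReal.ofReal (S1 + S2) + ∑ j ∈ Finset.range (N - M),
            ENNReal.ofReal (m * γ + K2) := by
          gcongr with j hj
          exact hbi (M + j) (by omega) (by have := Finset.mem_range.1 hj; omega)
      _ = ENNReal.ofReal (S1 + S2 + (N - M : ℕ) * (m * γ + K2)) := by
          rw [Finset.sum_const, Finset.card_range, nsmul_eq_mul,
            ENNReal.ofReal_add (add_nonneg hS10 hS20)
              (show (0 : ℝ) ≤ ((N - M : ℕ) : ℝ) * (m * γ + K2) by positivity),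
            ENNReal.ofReal_mul (Nat.cast_nonneg _), ENNReal.ofReal_natCast]
      _ ≤ ENNReal.ofReal (A * (γ + δ)) := by
          refine ENNReal.ofReal_le_ofReal ?_
          have h1 : ((N - M : ℕ) : ℝ) ≤ N := by exact_mod_cast Nat.sub_le _ _
          have h2 : ((N - M : ℕ) : ℝ) * (m * γ + K2) ≤ N * (m * γ + m * (δ / 2)) := by
            gcongr
          have h3 : (N : ℝ) * (m * γ + m * (δ / 2)) = N * m * (γ + δ / 2) := by ring
          have h4 : (N : ℝ) * m * (γ + δ / 2) ≤ A * (γ + δ / 2) := by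
            gcongr
            linarith
          linarith

end Pool.Agent.J6H84.NC.Reach
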