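import Pool.Agent.J6H99.NC.Stm2

/-!
# No corners of the limit shape: the core inequality
-/

set_option autoImplicit false

open MeasureTheory ProbabilityTheory Filter Topology
open scoped ENNReal

namespace Pool.Agent.J6H84.NC.Core

open Pool.Agent.J6H99.NC

variable {e : ℕ}

lemma sym2_nonempty (s : Sym2 (V e)) : ∃ v, v ∈ s := by
  induction s with
  | _ x y => exact ⟨x, Sym2.mem_mk_left x y⟩

/-- the translated search event -/
def S' (q : Par) (c : E e) (T : Set (V e)) (s : ℝ) (z y : V e) : Set (Om e) :=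
  Ev q (EIn ({x | x - z ∈ T} ∩ HS c (lf c z) ∩ {x | lf c x ≤ lf c (y + z)}) ∩
    Low c (lf c (y + z))) z (y + z) (lf c y - s)

lemma edge_iff (c : E e) (T : Set (V e)) (z y : V e) (t : Sym2 (V e)) :
    t ∈ EIn (T ∩ HS c 0 ∩ {x | lf c x ≤ lf c y}) ∩ Low c (lf c y) ↔
      t.map (tr z) ∈ EIn ({x | x - z ∈ T} ∩ HS c (lf c z) ∩ {x | lf c x ≤ lf c (y + z)}) ∩
        Low c (lf c (y + z)) := by
  refine and_congr (EIn_map (tr z) (fun v => ?_) t) ?_
  · simp only [Set.mem_inter_iff, Set.mem_ofPred_eq, tr_apply, add_sub_cancel_right, HS, lf_add]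
    refine and_congr (and_congr Iff.rfl ?_) ?_
    · constructor <;> intro h <;> linarith
    · constructor <;> intro h <;> linarith
  · rw [lf_add]
    exact mem_Low_tr c z _ t

lemma S'_act (q : Par) (c : E e) (T : Set (V e)) (s : ℝ) (z y : V e) :
    act (tr z) ⁻¹' (Ev q (EIn (T ∩ HS c 0 ∩ {x | lf c x ≤ lf c y}) ∩ Low c (lf c y)) 0 y
      (lf c y - s)) = S' q c T s z y := by
  have h := Ev_act q (tr z) (edge_iff c T z y) 0 y (lf c y - s)
  rw [tr_apply, tr_apply, zero_add] at h
  exact h

lemma SSa_meas (q : Par) (c : E e) (T : Set (V e)) (s : ℝ) : MeasurableSet (SSa q c T s) :=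
  MeasurableSet.iUnion fun y => Ev_meas q _ _ _ _

lemma mem_of_SSa {q : Par} {c : E e} {T : Set (V e)} {s : ℝ} (hs : 0 < s) {ω : Om e} {y : V e}
    (h : ω ∈ Ev q (EIn (T ∩ HS c 0 ∩ {x | lf c x ≤ lf c y}) ∩ Low c (lf c y)) 0 y
      (lf c y - s)) : y ∈ T ∧ s ≤ lf c y := by
  obtain ⟨p, hp, hc⟩ := h
  have h0 := cost_nonneg q ω p
  have h1 : s ≤ lf c y := by linarith
  refine ⟨?_, h1⟩
  have hne : (0 : V e) ≠ y := by
    rintro rfl
    rw [lf_zero] at h1
    linarith
  -- the last edge
  have h2 : ¬ p.Nil := SimpleGraph.Walk.not_nil_of_ne hne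
  have h3 : s(p.penultimate, y) ∈ p.edges := SimpleGraph.Walk.mk_penultimate_end_mem_edges h2
  exact ((hp _ h3).1 y (Sym2.mem_mk_right _ _)).1.1

theorem core (h1 : FirstT) (h2 : TrialsT) (h3 : ChainT) : CoreT := by
  classical
  intro e q F _ hV hF c hc lb T R s η A m m' m'' l M z z' x' y' hT hs hη0 hη1 hA hl hm hm' hm''
    hP hz hzX hdis hTy hAl hz' hx' hR hRT hy'
  set TT : Set (V e) := {y | y ∈ T ∧ s ≤ lf c y} with hTT
  have hTTf : TT.Finite := hT.subset fun y hy => hy.1
  haveI : Fintype TT := hTTf.fintype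
  set BB : Set (Sym2 (V e)) := {t | t ∈ EIn (HS c A) ∧ ∃ j < M, t ∈ EIn {x | x - z j ∈ T}} with hBB
  have hSLow : ∀ i : Fin M × TT, MeasurableSet[MS (Low c (lf c (i.2.1 + z i.1)))]
      (S' q c T s (z i.1) i.2.1) := fun i => Ev_meas_MS q Set.inter_subset_right _ _ _
  have hSBB : ∀ i : Fin M × TT, MeasurableSet[MS BB] (S' q c T s (z i.1) i.2.1) := by
    intro i
    refine Ev_meas_MS q ?_ _ _ _
    intro t ht
    exact ⟨fun v hv => (hz _ i.1.2).trans (ht.1 v hv).1.2,
      i.1, i.1.2, fun v hv => (ht.1 v hv).1.1⟩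
  obtain ⟨W, hWS, hWLow, hWBB, hWd, hWU⟩ := h1 e c (Fin M × TT)
    (fun i => lf c (i.2.1 + z i.1)) (fun i => S' q c T s (z i.1) i.2.1) BB hSLow hSBB
  -- the failure event
  have hW0 : PM e F (⋃ i, W i)ᶜ ≤ ENNReal.ofReal ((1 - η) ^ M) := by
    have h := h2 e F (fun j => if j < M then EIn {x | x - z j ∈ T} else ∅)
      (fun j => if j < M then ⋃ y : TT, S' q c T s (z j) y.1 else Set.univ) η hη0 hη1
      (fun i j hij => by
        by_cases hi : i < M
        · by_cases hj : j < M
          · simp only [hi, hj, if_true]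
            rw [Set.disjoint_left]
            intro t ht ht'
            obtain ⟨v, hv⟩ := sym2_nonempty t
            exact hdis i hi j hj hij v (ht v hv) (ht' v hv)
          · simp [hj]
        · simp [hi])
      (fun j => by
        by_cases hj : j < M
        · rw [if_pos hj, if_pos hj]
          refine @MeasurableSet.iUnion _ _ (MS _) _ _ fun y => ?_
          exact Ev_meas_MS q (fun t ht v hv => (ht.1 v hv).1.1) _ _ _
        · rw [if_neg hj, if_neg hj]
          exact @MeasurableSet.univ _ (MS _))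
      (fun j => by
        by_cases hj : j < M
        · simp only [hj, if_true]
          refine hP.trans ?_
          rw [← (act_mp F (tr (z j))).measure_preimage (SSa_meas q c T s).nullMeasurableSet]
          refine measure_mono ?_
          intro ω hω
          obtain ⟨y, hy⟩ := Set.mem_iUnion.1 (show act (tr (z j)) ω ∈ SSa q c T s from hω)
          have hyT := mem_of_SSa hs hy
          refine Set.mem_iUnion.2 ⟨⟨y, hyT⟩, ?_⟩
          rw [← S'_act]
          exact hy
        · simp only [hj, if_false]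
          rw [measure_univ]
          exact ENNReal.ofReal_le_one.2 hη1) M
    refine (measure_mono ?_).trans h
    rw [hWU]
    intro ω hω
    simp only [Set.mem_iInter]
    intro j hj
    rw [Finset.mem_range] at hj
    simp only [hj, if_true]
    intro hmem
    obtain ⟨y, hy⟩ := Set.mem_iUnion.1 hmem
    exact hω (Set.mem_iUnion.2 ⟨(⟨j, hj⟩, y), hy⟩)
  -- measurability of the failure event
  have hW0BB : MeasurableSet[MS BB] (⋃ i, W i)ᶜ := by
    refine @MeasurableSet.compl _ _ (MS BB) ?_
    exact @MeasurableSet.iUnion _ _ (MS BB) _ _ fun i => hWBB i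
  have hlevel : ∀ i : Fin M × TT, lf c (i.2.1 + z i.1) ≤ lf c y' := fun i => by
    rw [lf_add]; exact hTy _ i.1.2 _ i.2.2.1
  have hlevel0 : ∀ i : Fin M × TT, A ≤ lf c (i.2.1 + z i.1) := fun i => by
    rw [lf_add]
    have := hz _ i.1.2
    have := i.2.2.2
    linarith
  have hW0Low : MeasurableSet[MS (Low c (lf c y'))] (⋃ i, W i)ᶜ := by
    refine @MeasurableSet.compl _ _ (MS (Low c (lf c y'))) ?_
    exact @MeasurableSet.iUnion _ _ (MS (Low c (lf c y'))) _ _ fun i =>
      MS_mono (Low_mono c (hlevel i)) _ (hWLow i)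
  have hchain := h3 e q F hV hF c hc lb (Option (Fin M × TT))
    (fun o => o.elim (⋃ i, W i)ᶜ W) (fun o => o.elim y' fun i => i.2.1 + z i.1) (lf c y')
    (fun o => by
      cases o with
      | none => exact hW0Low
      | some i => exact hWLow i)
    (fun o o' hoo => by
      cases o with
      | none =>
        cases o' with
        | none => exact absurd rfl hoo
        | some i =>
          exact (Set.disjoint_compl_left_iff_subset.2 (Set.subset_iUnion W i))
      | some i =>
        cases o' with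
        | none => exact (Set.disjoint_compl_right_iff_subset.2 (Set.subset_iUnion W i))
        | some j => exact hWd i j fun h => hoo (by rw [h]))
    (by
      rw [Set.iUnion_option]
      exact Set.compl_union_self _)
    (fun o => by
      cases o with
      | none => exact (by linarith : (0 : ℝ) ≤ A + l).trans hAl
      | some i => exact hA.trans (hlevel0 i))
    (fun o => by
      cases o with
      | none => exact le_rfl
      | some i => exact hlevel i)
  rw [tsum_fintype, tsum_fintype, Fintype.sum_option, Fintype.sum_option] at hchain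
  simp only [Option.elim] at hchain
  -- the upper bounds
  have hdisA : Disjoint BB (Slab c 0 A) := by
    refine (Low_disjoint_EIn c le_rfl).symm.mono (fun t ht => ht.1) Set.inter_subset_right
  have hdisR : Disjoint BB (EIn R) := by
    rw [Set.disjoint_left]
    rintro t ⟨_, j, hj, htj⟩ htR
    obtain ⟨v, hv⟩ := sym2_nonempty t
    exact hRT v (htR v hv) j hj (htj v hv)
  have hub : ∀ i : Fin M × TT,
      ∫⁻ ω in W i, X q ω (Slab c 0 (lf c (i.2.1 + z i.1))) 0 {i.2.1 + z i.1} ∂(PM e F) ≤
        PM e F (W i) * ENNReal.ofReal (A + m + (lf c i.2.1 - s)) := by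
    intro i
    have hWm : MeasurableSet (W i) := MS_le _ _ (hWBB i)
    have hge : 0 ≤ lf c i.2.1 - s := by
      have := i.2.2.2
      linarith
    calc ∫⁻ ω in W i, X q ω (Slab c 0 (lf c (i.2.1 + z i.1))) 0 {i.2.1 + z i.1} ∂(PM e F)
        ≤ ∫⁻ ω in W i, (X q ω (Slab c 0 A) 0 {z i.1} + ENNReal.ofReal (lf c i.2.1 - s))
            ∂(PM e F) := by
          refine setLIntegral_mono ((X_meas q _ _ _).add measurable_const) fun ω hω => ?_
          refine (X_trans q ω _ 0 (z i.1) _).trans (add_le_add ?_ ?_)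
          · exact X_mono q ω (Slab_mono c le_rfl (hlevel0 i)) _ _
          · refine X_le_of_Ev q (Set.mem_singleton _) (Ev_mono_set q ?_ _ _ _ (hWS i hω))
            rintro t ⟨ht1, ht2⟩
            exact ⟨fun v hv => (hA.trans (hz _ i.1.2)).trans (ht1 v hv).1.2, ht2⟩
      _ = PM e F (W i) * ∫⁻ ω, X q ω (Slab c 0 A) 0 {z i.1} ∂(PM e F) +
            PM e F (W i) * ENNReal.ofReal (lf c i.2.1 - s) := by
          rw [lintegral_add_right _ measurable_const, setLIntegral_const,
            lint_indep F hdisA (hWBB i) _ (X_meas_MS q subset_rfl _ _), mul_comm (ENNReal.ofReal _)]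
      _ ≤ PM e F (W i) * ENNReal.ofReal (A + m) +
            PM e F (W i) * ENNReal.ofReal (lf c i.2.1 - s) := by
          gcongr
          exact hzX _ i.1.2
      _ = _ := by
          rw [← mul_add, ← ENNReal.ofReal_add (by positivity) hge]
  have hub0 : ∫⁻ ω in (⋃ i, W i)ᶜ, X q ω (Slab c 0 (lf c y')) 0 {y'} ∂(PM e F) ≤
      PM e F (⋃ i, W i)ᶜ * ENNReal.ofReal (A + m + (l + m') + m'') := by
    calc ∫⁻ ω in (⋃ i, W i)ᶜ, X q ω (Slab c 0 (lf c y')) 0 {y'} ∂(PM e F)
        ≤ ∫⁻ ω in (⋃ i, W i)ᶜ, (X q ω (Slab c 0 A) 0 {z'} + X q ω (EIn R) z' {x'} +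
            ENNReal.ofReal m'') ∂(PM e F) := by
          refine setLIntegral_mono (((X_meas q _ _ _).add (X_meas q _ _ _)).add measurable_const)
            fun ω hω => ?_
          have e1 : Slab c 0 A ⊆ Slab c 0 (lf c y') := Slab_mono c le_rfl (by linarith)
          have e2 : EIn R ⊆ Slab c 0 (lf c y') := by
            intro t ht
            obtain ⟨v, hv⟩ := sym2_nonempty t
            exact ⟨fun v hv => (hR v (ht v hv)).1, v, hv, (hR v (ht v hv)).2⟩
          rw [add_assoc]
          refine (X_trans q ω _ 0 z' _).trans (add_le_add (X_mono q ω e1 _ _) ?_)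
          exact (X_trans q ω _ z' x' _).trans (add_le_add (X_mono q ω e2 _ _) (hy' ω))
      _ = PM e F (⋃ i, W i)ᶜ * ∫⁻ ω, X q ω (Slab c 0 A) 0 {z'} ∂(PM e F) +
            PM e F (⋃ i, W i)ᶜ * ∫⁻ ω, X q ω (EIn R) z' {x'} ∂(PM e F) +
            PM e F (⋃ i, W i)ᶜ * ENNReal.ofReal m'' := by
          rw [lintegral_add_right _ measurable_const, lintegral_add_right _ (X_meas q _ _ _),
            setLIntegral_const,
            lint_indep F hdisA hW0BB _ (X_meas_MS q subset_rfl _ _),
            lint_indep F hdisR hW0BB _ (X_meas_MS q subset_rfl _ _), mul_comm (ENNReal.ofReal _)]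
      _ ≤ PM e F (⋃ i, W i)ᶜ * ENNReal.ofReal (A + m) +
            PM e F (⋃ i, W i)ᶜ * ENNReal.ofReal (l + m') +
            PM e F (⋃ i, W i)ᶜ * ENNReal.ofReal m'' := by
          gcongr
      _ = _ := by
          rw [← mul_add, ← mul_add, ← ENNReal.ofReal_add (by positivity) (by positivity),
            ← ENNReal.ofReal_add (by positivity) (by positivity)]
  -- real numbers
  have hbig := hchain.trans (add_le_add hub0 (Finset.sum_le_sum fun i _ => hub i))
  set p : Fin M × TT → ℝ := fun i => (PM e F (W i)).toReal with hp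
  set p0 : ℝ := (PM e F (⋃ i, W i)ᶜ).toReal with hp0
  have hpe : ∀ i, PM e F (W i) = ENNReal.ofReal (p i) := fun i =>
    (ENNReal.ofReal_toReal (measure_ne_top _ _)).symm
  have hp0e : PM e F (⋃ i, W i)ᶜ = ENNReal.ofReal p0 :=
    (ENNReal.ofReal_toReal (measure_ne_top _ _)).symm
  have hpn : ∀ i, 0 ≤ p i := fun i => ENNReal.toReal_nonneg
  have hp0n : 0 ≤ p0 := ENNReal.toReal_nonneg
  simp only [hpe, hp0e] at hbig
  have hy'0 : 0 ≤ lf c y' := (by linarith : (0 : ℝ) ≤ A + l).trans hAl
  have hconv : ENNReal.ofReal (p0 * lf c y' + ∑ i : Fin M × TT, p i * lf c (i.2.1 + z i.1)) ≤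
      ENNReal.ofReal (p0 * (A + m + (l + m') + m'') +
        ∑ i : Fin M × TT, p i * (A + m + (lf c i.2.1 - s))) := by
    have hA1 : ∀ i : Fin M × TT, 0 ≤ lf c (i.2.1 + z i.1) := fun i => hA.trans (hlevel0 i)
    have hA2 : ∀ i : Fin M × TT, 0 ≤ A + m + (lf c i.2.1 - s) := fun i => by
      have := i.2.2.2
      linarith
    rw [ENNReal.ofReal_add (mul_nonneg hp0n hy'0)
        (Finset.sum_nonneg fun i _ => mul_nonneg (hpn i) (hA1 i)),
      ENNReal.ofReal_add (mul_nonneg hp0n (by positivity))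
        (Finset.sum_nonneg fun i _ => mul_nonneg (hpn i) (hA2 i)),
      ENNReal.ofReal_sum_of_nonneg fun i _ => mul_nonneg (hpn i) (hA1 i),
      ENNReal.ofReal_sum_of_nonneg fun i _ => mul_nonneg (hpn i) (hA2 i),
      ENNReal.ofReal_mul hp0n, ENNReal.ofReal_mul hp0n]
    simp only [ENNReal.ofReal_mul (hpn _)]
    exact hbig
  have hA2 : ∀ i : Fin M × TT, 0 ≤ A + m + (lf c i.2.1 - s) := fun i => by
    have := i.2.2.2
    linarith
  have hreal := (ENNReal.ofReal_le_ofReal_iff (by
    refine add_nonneg (mul_nonneg hp0n (by positivity))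
      (Finset.sum_nonneg fun i _ => mul_nonneg (hpn i) (hA2 i)))).1 hconv
  -- the sum of the probabilities
  have hsum : p0 + ∑ i, p i = 1 := by
    have hWm : ∀ i, MeasurableSet (W i) := fun i => MS_le _ _ (hWBB i)
    have hUm : MeasurableSet (⋃ i, W i) := MeasurableSet.iUnion hWm
    have e1 : (PM e F).real (⋃ i, W i) = ∑ i, p i := by
      rw [measureReal_def, measure_iUnion (fun i j hij => hWd i j hij) hWm, tsum_fintype,
        ENNReal.toReal_sum fun i _ => measure_ne_top _ _]
    have e2 : p0 = 1 - (PM e F).real (⋃ i, W i) := by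
      rw [hp0, ← measureReal_def, probReal_compl_eq_one_sub hUm]
    rw [e2, e1]; ring
  have hp0le : p0 ≤ (1 - η) ^ M := by
    have hr0 : 0 ≤ (1 - η) ^ M := pow_nonneg (by linarith) _
    have := ENNReal.toReal_mono ENNReal.ofReal_ne_top hW0
    rwa [ENNReal.toReal_ofReal hr0] at this
  have hr0 : 0 ≤ (1 - η) ^ M := pow_nonneg (by linarith) _
  have hr1 : (1 - η) ^ M ≤ 1 := pow_le_one₀ (by linarith) (by linarith)
  have hS1 : ∑ i : Fin M × TT, p i * (lf c i.2.1 + A) ≤
      ∑ i : Fin M × TT, p i * lf c (i.2.1 + z i.1) := by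
    refine Finset.sum_le_sum fun i _ => mul_le_mul_of_nonneg_left ?_ (hpn i)
    rw [lf_add]
    have := hz _ i.1.2
    linarith
  have hS2 : ∑ i : Fin M × TT, p i * (A + m + (lf c i.2.1 - s)) =
      ∑ i : Fin M × TT, p i * (lf c i.2.1 + A) - (∑ i, p i) * (s - m) := by
    rw [Finset.sum_mul, ← Finset.sum_sub_distrib]
    refine Finset.sum_congr rfl fun i _ => ?_
    ring
  have hS3 : p0 * (A + l) ≤ p0 * lf c y' := mul_le_mul_of_nonneg_left hAl hp0n
  have hkey : (1 - p0) * (s - m) ≤ p0 * (m + m' + m'') := by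
    have : (1 - p0) = ∑ i, p i := by linarith
    rw [this]
    rw [hS2] at hreal
    nlinarith
  rcases le_total (s - m) 0 with hsm | hsm
  · have e1 : (1 - (1 - η) ^ M) * (s - m) ≤ 0 :=
      mul_nonpos_of_nonneg_of_nonpos (by linarith) hsm
    have e2 : 0 ≤ (1 - η) ^ M * (m + m' + m'') := by positivity
    linarith
  · calc (1 - (1 - η) ^ M) * (s - m) ≤ (1 - p0) * (s - m) :=
          mul_le_mul_of_nonneg_right (by linarith) hsm
      _ ≤ p0 * (m + m' + m'') := hkey
      _ ≤ _ := mul_le_mul_of_nonneg_right hp0le (by positivity)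

end Pool.Agent.J6H84.NC.Core
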